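import Pool.Agent.Lib.MP_a51368_pr.MainM

open MeasureTheory ProbabilityTheory Set

namespace Pool.Agent.Results.MP_a51368_pr.LargeMean

open CausalPerc

/-- For every parameter `α ≥ 3/4` (mean number of children at least `3`), percolation with
horizontal edges on the supercritical causal triangulation has a uniqueness threshold strictly
above the critical value, and it is at most `1/2`. -/
theorem result (α : ℝ) (h1 : 3 / 4 ≤ α) (h2 : α < 1) :
    (∀ p, MeasurableSet {ω : Conf | numInf p ω = 1}) ∧
    ∃ pu : ℝ, pc α < pu ∧ pu ≤ 1 / 2 ∧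
      (∀ p, pu < p → p < 1 → condLaw α {ω | numInf p ω = 1} = 1) ∧
      (∀ p, pc α < p → p < pu → condLaw α {ω | numInf p ω = 1} < 1) :=
  ⟨measurableSet_numInf, three_quarters_main α h1 h2⟩

end Pool.Agent.Results.MP_a51368_pr.LargeMean
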