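import Pool.Agent.Lib.MP_a51368_pr.Neg.AllN

open MeasureTheory ProbabilityTheory Set

namespace Pool.Agent.Results.MP_a51368_pr.NearCritical

open CausalPerc

/-- For every parameter `α` slightly above `1/2` the number of infinite clusters is almost surely
`1` at EVERY `p` above the critical value, so there is no uniqueness threshold `pu > pc`. -/
theorem result :
    (∀ p, MeasurableSet {ω : Conf | numInf p ω = 1}) ∧
    ∃ α₀ : ℝ, 1 / 2 < α₀ ∧ ∀ α : ℝ, 1 / 2 < α → α < α₀ →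
      α < 1 ∧ 0 < pc α ∧ pc α < 1 ∧
      (∀ p, pc α < p → p ≤ 1 → condLaw α {ω | numInf p ω = 1} = 1) ∧
      ¬ ∃ pu : ℝ, pc α < pu ∧ pu < 1 ∧
        (∀ p, pu < p → p < 1 → condLaw α {ω | numInf p ω = 1} = 1) ∧
        (∀ p, pc α < p → p < pu → condLaw α {ω | numInf p ω = 1} < 1) := by
  obtain ⟨α₀, h0, h⟩ := Neg.near_critical
  refine ⟨measurableSet_numInf, α₀, h0, fun α h1 h2 => ?_⟩
  obtain ⟨h3, h4, h5, h6⟩ := h α h1 h2
  exact ⟨h3, h4, h5, h6, Neg.neg_form h6⟩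

end Pool.Agent.Results.MP_a51368_pr.NearCritical
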