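import Pool.Agent.Lib.MP_a51368_pr.Thr.MainT

open MeasureTheory ProbabilityTheory Set

namespace Pool.Agent.Results.MP_a51368_pr.ThresholdStructure

open CausalPerc

/-- For EVERY parameter `α` in `(1/2, 1)` the uniqueness of the infinite cluster has a threshold
`pu < 1` above the critical value (possibly equal to it): the number of infinite clusters is almost
surely `1` for all `p > pu`, and not almost surely `1` for all `p` between the critical value and
`pu`. -/
theorem result (α : ℝ) (h1 : 1 / 2 < α) (h2 : α < 1) :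
    (∀ p, MeasurableSet {ω : Conf | numInf p ω = 1}) ∧
    ∃ pu : ℝ, pc α ≤ pu ∧ pu < 1 ∧ (317 / 500 ≤ α → pu ≤ 1 / 2) ∧
      (∀ p, pu < p → p ≤ 1 → condLaw α {ω | numInf p ω = 1} = 1) ∧
      (∀ p, pc α < p → p < pu → condLaw α {ω | numInf p ω = 1} < 1) :=
  ⟨measurableSet_numInf, Thr.threshold α h1 h2⟩

end Pool.Agent.Results.MP_a51368_pr.ThresholdStructure
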